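import Pool.Agent.Helper243.SemiSym

set_option autoImplicit false

namespace Pool.Agent.Results.MP_93ce36_al.FourTimes

/-- Every incomplete quasigroup on `n` points closed under `x(yx) = y` (if `yx = z` is defined then
`xz = y` is defined) embeds, for every `t ≥ 4n` with `t ≥ 20`, into a quasigroup of order `t`
satisfying `x(yx) = y`. -/
theorem result :
    ∀ (n : ℕ) (P : Fin n → Fin n → Option (Fin n)),
      (∀ a b b' c, P a b = some c → P a b' = some c → b = b') →
      (∀ a a' b c, P a b = some c → P a' b = some c → a = a') →
      (∀ x y z, P y x = some z → P x z = some y) →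
      ∀ t : ℕ, 4 * n ≤ t → 20 ≤ t →
        ∃ (f : Fin t → Fin t → Fin t) (φ : Fin n → Fin t),
          (∀ a, Function.Bijective (f a)) ∧
          (∀ b, Function.Bijective (fun a => f a b)) ∧
          (∀ x y, f x (f y x) = y) ∧
          Function.Injective φ ∧
          ∀ a b c, P a b = some c → f (φ a) (φ b) = φ c :=
  fun n P _ _ hP t ht ht' => Pool.Agent.Helper243.SemiSym.assemble n t P hP ht ht'

end Pool.Agent.Results.MP_93ce36_al.FourTimes
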